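import Pool.Agent.Helper10.CR.Goals2

/-!
# Project CR (MP_ca5fc5_al): packet ATII, the atomic relations of `T` in case II
-/

universe u v

set_option linter.unusedSectionVars false

namespace Pool.Agent.Helper30.CR

open Pool.Agent.Helper10.CR Pool.Agent.Helper10.Width Pool.Agent.Helper72.Width
  Pool.Agent.Helper78.SD
open scoped QuadraticAlgebra
open IsLocalRing

namespace PkATII

variable {R : Type u} [CommRing R] [IsLocalRing R] {r x x' α β : R}

theorem e1 (h : DII R r x x' α β) {u v f g : R}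
    (e : x * u + x' * v = (r * x) * f + (r * x') * g) :
    u ∈ maximalIdeal R ∧ v ∈ maximalIdeal R ∧
      x' * u + (α * x + β * x') * v = (r * x) * (α * g) + (r * x') * (f + β * g) := by
  have h1 := h.soc r h.rm
  have h2 := h.ind u v (by
    have : u * (r * x) + v * (r * x') = r * (x * u + x' * v) := by ring
    rw [this, e]
    linear_combination f * h1.1 + g * h1.2)
  have h3 := h.ex u v f g (by linear_combination e)
  exact ⟨h2.1, h2.2, by linear_combination h3⟩

theorem e0 (h : DII R r x x' α β) {f g : R} (e : (r * x) * f + (r * x') * g = 0) :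
    f ∈ maximalIdeal R ∧ g ∈ maximalIdeal R :=
  h.ind f g (by linear_combination e)

variable {V : Type u} [AddCommGroup V] [Module (ResidueField R) V]

variable (h : DII R r x x' α β)
  (S : Str (ResidueField R)
    (QuadraticAlgebra (ResidueField R) (residue R α) (residue R β)) 2 V)

theorem redD_zero {ι : Type u} (f : ι →₀ QuadraticAlgebra R α β)
    (h2 : ∀ i, (f i).re ∈ maximalIdeal R ∧ (f i).im ∈ maximalIdeal R) :
    (ctxII h).redD f = 0 := by
  refine Finsupp.ext fun i => ?_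
  rw [Ctx.redD_apply]
  show (⟨residue R (f i).re, residue R (f i).im⟩ :
    QuadraticAlgebra (ResidueField R) (residue R α) (residue R β)) = 0
  rw [residue_zero_of_mem (h2 i).1, residue_zero_of_mem (h2 i).2]
  rfl

theorem red_zero (f : (ctxII h).F S) (h1 : ∀ i, f.1 i ∈ maximalIdeal R)
    (h2 : ∀ i, (f.2 i).re ∈ maximalIdeal R ∧ (f.2 i).im ∈ maximalIdeal R) :
    (ctxII h).red S f = 0 := by
  rw [Ctx.red_apply, redD_zero h f.2 h2]
  have a1 : Finsupp.mapRange (ctxII h).ρ (map_zero _) f.1 = 0 := by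
    refine Finsupp.ext fun i => ?_
    rw [Finsupp.mapRange_apply]
    exact residue_zero_of_mem (h1 i)
  rw [a1]
  exact map_zero S.e

/-- (E1) in the free module. -/
theorem E1 {u v f g : (ctxII h).F S} (e : x • u + x' • v = (r * x) • f + (r * x') • g) :
    (ctxII h).red S u = 0 ∧ (ctxII h).red S v = 0 ∧
      x' • u + (α * x + β * x') • v = (r * x) • (α • g) + (r * x') • (f + β • g) := by
  have c1 : ∀ i, _ := fun i => e1 h (congrArg (fun w : (ctxII h).F S => w.1 i) e)
  have c2 : ∀ i, _ := fun i => e1 h (congrArg (fun w : (ctxII h).F S => (w.2 i).re) e)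
  have c3 : ∀ i, _ := fun i => e1 h (congrArg (fun w : (ctxII h).F S => (w.2 i).im) e)
  refine ⟨red_zero h S u (fun i => (c1 i).1) (fun i => ⟨(c2 i).1, (c3 i).1⟩),
    red_zero h S v (fun i => (c1 i).2.1) (fun i => ⟨(c2 i).2.1, (c3 i).2.1⟩), ?_⟩
  refine Prod.ext (Finsupp.ext fun i => (c1 i).2.2) (Finsupp.ext fun i => ?_)
  exact QuadraticAlgebra.ext (c2 i).2.2 (c3 i).2.2

/-- Independence in the free module. -/
theorem E0 {f g : (ctxII h).F S} (e : (r * x) • f + (r * x') • g = 0) :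
    (∀ i, f.1 i ∈ maximalIdeal R ∧ g.1 i ∈ maximalIdeal R) ∧
      (ctxII h).redD f.2 = 0 ∧ (ctxII h).redD g.2 = 0 := by
  have c1 : ∀ i, _ := fun i => e0 h (congrArg (fun w : (ctxII h).F S => w.1 i) e)
  have c2 : ∀ i, _ := fun i => e0 h (congrArg (fun w : (ctxII h).F S => (w.2 i).re) e)
  have c3 : ∀ i, _ := fun i => e0 h (congrArg (fun w : (ctxII h).F S => (w.2 i).im) e)
  exact ⟨c1, redD_zero h f.2 (fun i => ⟨(c2 i).1, (c3 i).1⟩),
    redD_zero h g.2 (fun i => ⟨(c2 i).2, (c3 i).2⟩)⟩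

/-- The inclusion of the second part. -/
def inD (κ : S.ιD →₀ QuadraticAlgebra R α β) : (ctxII h).F S := (0, κ)

theorem om_om {ι : Type u} (κ : ι →₀ QuadraticAlgebra R α β) :
    (ω : QuadraticAlgebra R α β) • ((ω : QuadraticAlgebra R α β) • κ) =
      α • κ + β • ((ω : QuadraticAlgebra R α β) • κ) := by
  refine Finsupp.ext fun i => ?_
  refine QuadraticAlgebra.ext ?_ ?_
  · simp
    ring
  · simp

theorem chi_eq (κ : S.ιD →₀ QuadraticAlgebra R α β) :
    (ctxII h).chi S κ =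
      x' • inD h S κ - x • inD h S ((ω : QuadraticAlgebra R α β) • κ) := by
  refine Prod.ext ?_ (Finsupp.ext fun i => ?_)
  · show (0 : S.ιA →₀ R) = x' • 0 - x • 0
    simp
  · show (⟨x', -x⟩ : QuadraticAlgebra R α β) * κ i =
      x' • κ i - x • ((ω : QuadraticAlgebra R α β) * κ i)
    refine QuadraticAlgebra.ext ?_ ?_ <;> simp <;> ring

theorem inD_add (κ κ' : S.ιD →₀ QuadraticAlgebra R α β) :
    inD h S (κ + κ') = inD h S κ + inD h S κ' := by
  refine Prod.ext ?_ rfl
  show (0 : S.ιA →₀ R) = 0 + 0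
  simp

theorem inD_smul (t : R) (κ : S.ιD →₀ QuadraticAlgebra R α β) :
    inD h S (t • κ) = t • inD h S κ := by
  refine Prod.ext ?_ rfl
  show (0 : S.ιA →₀ R) = t • 0
  simp

theorem inD_sub (κ κ' : S.ιD →₀ QuadraticAlgebra R α β) :
    inD h S (κ - κ') = inD h S κ - inD h S κ' := by
  refine Prod.ext ?_ rfl
  show (0 : S.ιA →₀ R) = 0 - 0
  simp

theorem red_inD (κ : S.ιD →₀ QuadraticAlgebra R α β) :
    (ctxII h).red S (inD h S κ) = S.e (0, (ctxII h).redD κ) := by
  rw [Ctx.red_apply]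
  have : Finsupp.mapRange (ctxII h).ρ (map_zero _) (inD h S κ).1 = 0 := by
    show Finsupp.mapRange (ctxII h).ρ (map_zero _) (0 : S.ιA →₀ R) = 0
    simp
  rw [this]
  rfl

theorem redD_om {ι : Type u} (κ : ι →₀ QuadraticAlgebra R α β) :
    (ctxII h).redD ((ω : QuadraticAlgebra R α β) • κ) =
      (ω : QuadraticAlgebra (ResidueField R) (residue R α) (residue R β)) •
        (ctxII h).redD κ := by
  rw [Ctx.redD_smul]
  have : (ctxII h).ρ' (ω : QuadraticAlgebra R α β) =
      (ω : QuadraticAlgebra (ResidueField R) (residue R α) (residue R β)) := by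
    show (⟨residue R _, residue R _⟩ :
      QuadraticAlgebra (ResidueField R) (residue R α) (residue R β)) = _
    refine QuadraticAlgebra.ext ?_ ?_ <;> simp
  rw [this]

theorem red_smul (t : R) (f : (ctxII h).F S) :
    (ctxII h).red S (t • f) = residue R t • (ctxII h).red S f :=
  (ctxII h).red_smul S t f

theorem redD_smul' {ι : Type u} (t : R) (κ : ι →₀ QuadraticAlgebra R α β) :
    (ctxII h).redD (t • κ) = residue R t • (ctxII h).redD κ := (ctxII h).redD_smul' t κ

theorem redD_inj {z : S.ιD →₀ QuadraticAlgebra (ResidueField R) (residue R α) (residue R β)}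
    (hz : S.e (0, z) = 0) : z = 0 := by
  have := S.e.injective (hz.trans (map_zero S.e).symm)
  exact congrArg Prod.snd this

/-- Membership in `W`. -/
theorem mem_W (w : (ctxII h).F S) : w ∈ (ctxII h).W S ↔
    ∃ (f₀ f₁ : (ctxII h).F S) (κ : S.ιD →₀ QuadraticAlgebra R α β),
      ![(ctxII h).red S f₀, (ctxII h).red S f₁] - S.γ ((ctxII h).redD κ) ∈ S.Wr ∧
      w = (r * x) • f₀ + (r * x') • f₁ + (ctxII h).chi S κ := by
  have ee : ∀ f : Fin 2 → (ctxII h).F S, ![(ctxII h).red S (f 0), (ctxII h).red S (f 1)] =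
      fun j : Fin 2 => (ctxII h).red S (f j) := by
    intro f
    funext j
    fin_cases j <;> rfl
  have es : ∀ f : Fin 2 → (ctxII h).F S, (r * x) • f 0 + (r * x') • f 1 =
      ∑ j : Fin 2, (![r * x, r * x'] j) • f j := by
    intro f
    rw [Fin.sum_univ_two]
    rfl
  constructor
  · rintro ⟨f, κ, h1, h2⟩
    obtain ⟨f', hf'⟩ : ∃ f' : Fin 2 → (ctxII h).F S, f' = f := ⟨f, rfl⟩
    subst hf'
    refine ⟨f' 0, f' 1, κ, ?_, ?_⟩
    · rw [ee]
      exact h1
    · rw [es]
      exact h2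
  · rintro ⟨f₀, f₁, κ, h1, h2⟩
    refine ⟨![f₀, f₁], κ, ?_, ?_⟩
    · have := ee ![f₀, f₁]
      rw [show (![f₀, f₁] : Fin 2 → (ctxII h).F S) 0 = f₀ from rfl,
        show (![f₀, f₁] : Fin 2 → (ctxII h).F S) 1 = f₁ from rfl] at this
      rw [this] at h1
      exact h1
    · have := es ![f₀, f₁]
      rw [show (![f₀, f₁] : Fin 2 → (ctxII h).F S) 0 = f₀ from rfl,
        show (![f₀, f₁] : Fin 2 → (ctxII h).F S) 1 = f₁ from rfl] at this
      rw [this] at h2
      exact h2

theorem chi_sub (κ κ' : S.ιD →₀ QuadraticAlgebra R α β) :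
    (ctxII h).chi S (κ - κ') = (ctxII h).chi S κ - (ctxII h).chi S κ' := by
  rw [chi_eq, chi_eq, chi_eq, smul_sub, inD_sub, inD_sub]
  module

/-- Computation (C). -/
theorem C0 {y y' f₀ f₁ : (ctxII h).F S} {κ : S.ιD →₀ QuadraticAlgebra R α β}
    (e : x' • y - x • y' = (r * x) • f₀ + (r * x') • f₁ + (ctxII h).chi S κ) :
    (ctxII h).red S y = S.e (0, (ctxII h).redD κ) ∧
    (ctxII h).red S y' = S.e (0, (ω : QuadraticAlgebra (ResidueField R) (residue R α)
      (residue R β)) • (ctxII h).redD κ) ∧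
    (α * x + β * x') • y - x' • y' = (r * x) • (α • f₁) + (r * x') • (f₀ + β • f₁) +
      (ctxII h).chi S (β • κ - (ω : QuadraticAlgebra R α β) • κ) := by
  rw [chi_eq] at e
  obtain ⟨a1, a2, a3⟩ := E1 h S (u := inD h S ((ω : QuadraticAlgebra R α β) • κ) - y')
    (v := y - inD h S κ) (f := f₀) (g := f₁) (by
      linear_combination (norm := module) e)
  rw [map_sub, red_inD, redD_om, sub_eq_zero] at a1
  rw [map_sub, red_inD, sub_eq_zero] at a2
  refine ⟨a2, a1.symm, ?_⟩
  rw [chi_eq]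
  have e1 : (ω : QuadraticAlgebra R α β) • (β • κ - (ω : QuadraticAlgebra R α β) • κ) =
      -(α • κ) := by
    rw [smul_sub, om_om, smul_comm (ω : QuadraticAlgebra R α β) β]
    module
  rw [e1, inD_sub, inD_smul, ← neg_smul, inD_smul]
  linear_combination (norm := module) a3

variable {X : RS (ResidueField R) 7} (hX : PII (residue R α) (residue R β) X)
  (T : Str (ResidueField R)
    (QuadraticAlgebra (ResidueField R) (residue R α) (residue R β)) 2 X.V)
  (hT : IsStrII (residue R α) (residue R β) X T)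

include hX hT

theorem K0 (h₀ h₁ : (ctxII h).F T) (κ : T.ιD →₀ QuadraticAlgebra R α β)
    (e : (r * x) • h₀ + (r * x') • h₁ + (ctxII h).chi T κ = 0) :
    (ctxII h).redD κ = 0 ∧ ![(ctxII h).red T h₀, (ctxII h).red T h₁] ∈ T.Wr := by
  rw [chi_eq] at e
  obtain ⟨a1, a2, a3⟩ := E1 h T (u := -inD h T ((ω : QuadraticAlgebra R α β) • κ))
    (v := inD h T κ) (f := -h₀) (g := -h₁) (by
      linear_combination (norm := module) e)
  have hκ : (ctxII h).redD κ = 0 := by
    rw [red_inD] at a2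
    exact redD_inj T a2
  refine ⟨hκ, ?_⟩
  -- the second components
  have e2 : (r * x) • h₀.2 + (r * x') • h₁.2 +
      (x' • κ - x • ((ω : QuadraticAlgebra R α β) • κ)) = 0 := congrArg Prod.snd e
  have a4 : x' • (-((ω : QuadraticAlgebra R α β) • κ)) + (α * x + β * x') • κ =
      (r * x) • (α • (-h₁.2)) + (r * x') • (-h₀.2 + β • (-h₁.2)) := congrArg Prod.snd a3
  have e3 : (r * x) • ((ω : QuadraticAlgebra R α β) • h₀.2) +
      (r * x') • ((ω : QuadraticAlgebra R α β) • h₁.2) +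
      (x' • ((ω : QuadraticAlgebra R α β) • κ) - x • (α • κ + β • ((ω : QuadraticAlgebra R α β) • κ))) =
      (ω : QuadraticAlgebra R α β) • ((r * x) • h₀.2 + (r * x') • h₁.2 +
      (x' • κ - x • ((ω : QuadraticAlgebra R α β) • κ))) := by
    rw [← om_om, smul_add (ω : QuadraticAlgebra R α β), smul_add (ω : QuadraticAlgebra R α β),
      smul_sub (ω : QuadraticAlgebra R α β), smul_comm (ω : QuadraticAlgebra R α β) (r * x),
      smul_comm (ω : QuadraticAlgebra R α β) (r * x'), smul_comm (ω : QuadraticAlgebra R α β) x',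
      smul_comm (ω : QuadraticAlgebra R α β) x]
  rw [e2, smul_zero] at e3
  have e1 : (r * x) • h₀.1 + (r * x') • h₁.1 + (x' • (0 : T.ιA →₀ R) - x • 0) = 0 :=
    congrArg Prod.fst e
  rw [smul_zero, smul_zero, sub_zero, add_zero] at e1
  obtain ⟨b1, b2, b3⟩ := E0 h T
    (f := (h₀.1, β • h₀.2 - (ω : QuadraticAlgebra R α β) • h₀.2 - α • h₁.2))
    (g := (h₁.1, -((ω : QuadraticAlgebra R α β) • h₁.2) - h₀.2)) (by
      refine Prod.ext e1 ?_
      show (r * x) • (β • h₀.2 - (ω : QuadraticAlgebra R α β) • h₀.2 - α • h₁.2) +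
        (r * x') • (-((ω : QuadraticAlgebra R α β) • h₁.2) - h₀.2) = 0
      linear_combination (norm := module) β • e2 - e3 - a4)
  have r0 : (ctxII h).red T h₀ = T.e (0, (ctxII h).redD h₀.2) := by
    rw [Ctx.red_apply]
    have : Finsupp.mapRange (ctxII h).ρ (map_zero _) h₀.1 = 0 := by
      refine Finsupp.ext fun i => ?_
      rw [Finsupp.mapRange_apply]
      exact residue_zero_of_mem (b1 i).1
    rw [this]
  have r1 : (ctxII h).red T h₁ = T.e (0, (ctxII h).redD h₁.2) := by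
    rw [Ctx.red_apply]
    have : Finsupp.mapRange (ctxII h).ρ (map_zero _) h₁.1 = 0 := by
      refine Finsupp.ext fun i => ?_
      rw [Finsupp.mapRange_apply]
      exact residue_zero_of_mem (b1 i).2
    rw [this]
  have b3' : (ctxII h).redD h₀.2 = -((ω : QuadraticAlgebra (ResidueField R) (residue R α)
      (residue R β)) • (ctxII h).redD h₁.2) := by
    have b4 : (ctxII h).redD (-((ω : QuadraticAlgebra R α β) • h₁.2) - h₀.2) = 0 := b3
    rw [map_sub, map_neg, redD_om, sub_eq_zero] at b4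
    exact b4.symm
  rw [hT.wr]
  have c1 := hX.dw _ _ (hT.dl ((ctxII h).redD h₁.2))
  have c2 := X.Rel.neg_mem c1
  have c3 : T.e (0, -((ω : QuadraticAlgebra (ResidueField R) (residue R α)
      (residue R β)) • (ctxII h).redD h₁.2)) =
      -T.e (0, (ω : QuadraticAlgebra (ResidueField R) (residue R α)
      (residue R β)) • (ctxII h).redD h₁.2) := by
    rw [← map_neg]
    congr 1
    refine Prod.ext ?_ rfl
    show (0 : T.ιA →₀ ResidueField R) = -0
    simp
  rw [r0, r1, b3', c3]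
  simpa using c2

theorem K (h₀ h₁ : (ctxII h).F T) (κ : T.ιD →₀ QuadraticAlgebra R α β) :
    (r * x) • h₀ + (r * x') • h₁ + (ctxII h).chi T κ ∈ (ctxII h).W T ↔
      ![(ctxII h).red T h₀, (ctxII h).red T h₁] - T.γ ((ctxII h).redD κ) ∈ T.Wr := by
  constructor
  · intro hw
    obtain ⟨f₀, f₁, κ', h1, h2⟩ := (mem_W h T _).1 hw
    obtain ⟨h3, h4⟩ := K0 h hX T hT (h₀ - f₀) (h₁ - f₁) (κ - κ') (by
      rw [chi_sub]
      linear_combination (norm := module) h2)
    rw [map_sub, sub_eq_zero] at h3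
    have h5 := add_mem h1 h4
    rw [h3]
    convert h5 using 1
    rw [map_sub, map_sub]
    ext j
    fin_cases j <;> simp <;> rfl
  · intro hw
    exact (mem_W h T _).2 ⟨h₀, h₁, κ, hw, rfl⟩

theorem A1 (f f' : (ctxII h).F T) : (r * x) • f + (r * x') • f' ∈ (ctxII h).W T ↔
    ![0, 0, (ctxII h).red T f, (ctxII h).red T f', 0, 0, 0] ∈ X.Rel := by
  have h1 := K h hX T hT f f' 0
  have h2 : (ctxII h).chi T 0 = 0 := by
    have := chi_sub h T 0 0
    rwa [sub_self, sub_self] at this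
  rw [h2, add_zero, map_zero, map_zero, sub_zero, hT.wr] at h1
  exact h1

theorem Z (f : (ctxII h).F T) : (r * x) • f ∈ (ctxII h).W T ↔ (ctxII h).red T f = 0 := by
  have h1 := A1 h hX T hT f 0
  rw [smul_zero, add_zero, map_zero] at h1
  rw [h1]
  constructor
  · intro h2
    exact hX.w0 _ h2
  · intro h2
    rw [h2]
    have : (![0, 0, 0, 0, 0, 0, 0] : Fin 7 → X.V) = 0 := by
      ext j
      fin_cases j <;> rfl
    rw [this]
    exact zero_mem _

theorem A2a (y y' : (ctxII h).F T) (hw : x' • y - x • y' ∈ (ctxII h).W T) :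
    ![(ctxII h).red T y, (ctxII h).red T y', 0, 0, 0, 0, 0] ∈ X.Rel := by
  obtain ⟨f₀, f₁, κ, h1, h2⟩ := (mem_W h T _).1 hw
  obtain ⟨h3, h4, -⟩ := C0 h T h2
  rw [h3, h4]
  exact hT.dl _

/-- The special solutions. -/
theorem sol (z : T.ιD →₀ QuadraticAlgebra (ResidueField R) (residue R α) (residue R β))
    (p q : X.V) (hpq : ![p, q] ∈ T.Wr) : ∃ (y y' f₀ f₁ : (ctxII h).F T)
      (κ : T.ιD →₀ QuadraticAlgebra R α β), (ctxII h).redD κ = z ∧
      (ctxII h).red T f₀ = T.γ z 0 + p ∧ (ctxII h).red T f₁ = T.γ z 1 + q ∧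
      (ctxII h).red T y = T.e (0, z) ∧
      (ctxII h).red T y' = T.e (0, (ω : QuadraticAlgebra (ResidueField R) (residue R α)
        (residue R β)) • z) ∧
      x' • y - x • y' = (r * x) • f₀ + (r * x') • f₁ + (ctxII h).chi T κ ∧
      x' • y - x • y' ∈ (ctxII h).W T := by
  obtain ⟨κ, hκ⟩ : ∃ κ : T.ιD →₀ QuadraticAlgebra R α β, (ctxII h).redD κ = z :=
    Finsupp.mapRange_surjective (ctxII h).ρ' (map_zero _) (ctxII h).hρ' z
  obtain ⟨f₀, hf₀⟩ := (ctxII h).red_surjective T (T.γ z 0 + p)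
  obtain ⟨f₁, hf₁⟩ := (ctxII h).red_surjective T (T.γ z 1 + q)
  have e : x' • (inD h T κ + r • f₁) -
      x • (inD h T ((ω : QuadraticAlgebra R α β) • κ) - r • f₀) =
      (r * x) • f₀ + (r * x') • f₁ + (ctxII h).chi T κ := by
    rw [chi_eq]
    module
  have hr : residue R r = 0 := residue_zero_of_mem h.rm
  refine ⟨inD h T κ + r • f₁, inD h T ((ω : QuadraticAlgebra R α β) • κ) - r • f₀, f₀, f₁, κ,
    hκ, hf₀, hf₁, ?_, ?_, e, ?_⟩
  · rw [map_add, red_inD, red_smul, hr, zero_smul, add_zero, hκ]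
  · rw [map_sub, red_inD, redD_om, red_smul, hr, zero_smul, sub_zero, hκ]
  · rw [e, K h hX T hT, hf₀, hf₁, hκ]
    convert hpq using 1
    ext j
    fin_cases j <;> simp

theorem A2b (f f' : (ctxII h).F T)
    (hf : ![(ctxII h).red T f, (ctxII h).red T f', 0, 0, 0, 0, 0] ∈ X.Rel) :
    ∃ y y' : (ctxII h).F T, (ctxII h).red T y = (ctxII h).red T f ∧
      (ctxII h).red T y' = (ctxII h).red T f' ∧ x' • y - x • y' ∈ (ctxII h).W T := by
  obtain ⟨z, hz⟩ := hT.hD _ _ hf
  have h1 := hT.dl z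
  have h2 := sub_mem hf h1
  rw [← hz] at h2
  have h3 := hX.d2 ((ctxII h).red T f' - T.e (0, (ω : QuadraticAlgebra (ResidueField R)
    (residue R α) (residue R β)) • z)) (by
      convert h2 using 1
      ext j
      fin_cases j <;> simp)
  obtain ⟨y, y', f₀, f₁, κ, -, -, -, h4, h5, -, h6⟩ := sol h hX T hT z 0 0 (by
    have : (![0, 0] : Fin 2 → X.V) = 0 := by
      ext j
      fin_cases j <;> rfl
    rw [this]
    exact zero_mem _)
  exact ⟨y, y', h4.trans hz, h5.trans (sub_eq_zero.1 h3).symm, h6⟩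

omit hX hT in
theorem alg1 {k W : Type u} [Field k] [AddCommGroup W] [Module k W] (a b : k)
    (s g c d f : W) :
    s = (g - b • c + a • d) + a • (f - d) - (a • f - s - (b • c - g)) := by module

omit hX hT in
theorem alg2 {k W : Type u} [Field k] [AddCommGroup W] [Module k W] (b : k)
    (s g c d f₀ f₁ : W) :
    s = (g + c) + ((f₀ - c) + b • (f₁ - d)) - (f₀ + b • f₁ - s - (b • d - g)) := by module

omit hX hT in
theorem alg3 {k W : Type u} [Field k] [AddCommGroup W] [Module k W] (a b : k)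
    (s g c d u v : W) (h : s - (g - b • c + a • d) = u + a • v) :
    a • (d + v) - s - (b • c - g) = -u := by
  linear_combination (norm := module) -h

omit hX hT in
theorem alg4 {k W : Type u} [Field k] [AddCommGroup W] [Module k W] (b : k)
    (s g c d u₂ v₁ v₂ : W) (h : s - (g + c) = v₁ + u₂ + b • v₂) :
    (c + u₂) + b • (d + v₂) - s - (b • d - g) = -v₁ := by
  linear_combination (norm := module) -h

/-- The membership in the third atom. -/
theorem K3 (f₀ f₁ s₁ s₂ : (ctxII h).F T) (κ : T.ιD →₀ QuadraticAlgebra R α β)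
    (z : T.ιD →₀ QuadraticAlgebra (ResidueField R) (residue R α) (residue R β)) (p q : X.V)
    (hz : (ctxII h).redD κ = z) (h₀ : (ctxII h).red T f₀ = p) (h₁ : (ctxII h).red T f₁ = q) :
    (r * x) • (α • f₁ - s₁) + (r * x') • (f₀ + β • f₁ - s₂) +
      (ctxII h).chi T (β • κ - (ω : QuadraticAlgebra R α β) • κ) ∈ (ctxII h).W T ↔
    ![0, 0, residue R α • q - (ctxII h).red T s₁ - (residue R β • T.γ z 0 -
        T.γ ((ω : QuadraticAlgebra (ResidueField R) (residue R α) (residue R β)) • z) 0),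
      p + residue R β • q - (ctxII h).red T s₂ - (residue R β • T.γ z 1 -
        T.γ ((ω : QuadraticAlgebra (ResidueField R) (residue R α) (residue R β)) • z) 1),
      0, 0, 0] ∈ X.Rel := by
  rw [K h hX T hT, hT.wr]
  have ez : (ctxII h).redD (β • κ - (ω : QuadraticAlgebra R α β) • κ) = residue R β • z -
      (ω : QuadraticAlgebra (ResidueField R) (residue R α) (residue R β)) • z := by
    rw [map_sub, redD_smul', redD_om, hz]
  have eg : T.γ ((ctxII h).redD (β • κ - (ω : QuadraticAlgebra R α β) • κ)) =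
      residue R β • T.γ z -
      T.γ ((ω : QuadraticAlgebra (ResidueField R) (residue R α) (residue R β)) • z) := by
    rw [ez, map_sub, map_smul]
  have e1 : (ctxII h).red T (α • f₁ - s₁) = residue R α • q - (ctxII h).red T s₁ := by
    rw [map_sub, red_smul, h₁]
  have e2 : (ctxII h).red T (f₀ + β • f₁ - s₂) = p + residue R β • q - (ctxII h).red T s₂ := by
    rw [map_sub, map_add, red_smul, h₀, h₁]
  have e3 : (![(ctxII h).red T (α • f₁ - s₁), (ctxII h).red T (f₀ + β • f₁ - s₂)] -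
      T.γ ((ctxII h).redD (β • κ - (ω : QuadraticAlgebra R α β) • κ))) 0 =
      residue R α • q - (ctxII h).red T s₁ - (residue R β • T.γ z 0 -
        T.γ ((ω : QuadraticAlgebra (ResidueField R) (residue R α) (residue R β)) • z) 0) := by
    rw [eg, ← e1]
    rfl
  have e4 : (![(ctxII h).red T (α • f₁ - s₁), (ctxII h).red T (f₀ + β • f₁ - s₂)] -
      T.γ ((ctxII h).redD (β • κ - (ω : QuadraticAlgebra R α β) • κ))) 1 =
      p + residue R β • q - (ctxII h).red T s₂ - (residue R β • T.γ z 1 -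
        T.γ ((ω : QuadraticAlgebra (ResidueField R) (residue R α) (residue R β)) • z) 1) := by
    rw [eg, ← e2]
    rfl
  rw [← e3, ← e4]

theorem A3a (y y' s₁ s₂ : (ctxII h).F T) (hw : x' • y - x • y' ∈ (ctxII h).W T)
    (hw' : (α * x + β * x') • y - x' • y' - ((r * x) • s₁ + (r * x') • s₂) ∈
      (ctxII h).W T) :
    ![0, 0, 0, 0, (ctxII h).red T y, (ctxII h).red T s₁, (ctxII h).red T s₂] ∈ X.Rel := by
  obtain ⟨f₀, f₁, κ, h1, h2⟩ := (mem_W h T _).1 hw
  obtain ⟨h3, h4, h5⟩ := C0 h T h2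
  have e : (α * x + β * x') • y - x' • y' - ((r * x) • s₁ + (r * x') • s₂) =
      (r * x) • (α • f₁ - s₁) + (r * x') • (f₀ + β • f₁ - s₂) +
      (ctxII h).chi T (β • κ - (ω : QuadraticAlgebra R α β) • κ) := by
    rw [h5]
    module
  obtain ⟨z, hz⟩ : ∃ z, (ctxII h).redD κ = z := ⟨_, rfl⟩
  rw [e, K3 h hX T hT f₀ f₁ s₁ s₂ κ z _ _ hz rfl rfl] at hw'
  rw [hT.wr, hz] at h1
  rw [hz] at h3
  have g := hT.g z
  have w1 := hX.g3 _ _ h1
  obtain ⟨q, q1, q2⟩ := hX.g1 _ _ _ w1
  rw [hX.d2 q q1] at q2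
  have w2 := hX.g3 _ _ hw'
  have h6 := sub_mem (add_mem g q2) w2
  rw [h3]
  convert h6 using 1
  ext j
  fin_cases j
  · simp
  · simp
  · simp
  · simp
  · simp
  · exact alg1 _ _ _ _ _ _ _
  · exact alg2 _ _ _ _ _ _ _

theorem A3b (f s₁ s₂ : (ctxII h).F T)
    (hf : ![0, 0, 0, 0, (ctxII h).red T f, (ctxII h).red T s₁, (ctxII h).red T s₂] ∈ X.Rel) :
    ∃ y y' : (ctxII h).F T, (ctxII h).red T y = (ctxII h).red T f ∧
      x' • y - x • y' ∈ (ctxII h).W T ∧
      (α * x + β * x') • y - x' • y' - ((r * x) • s₁ + (r * x') • s₂) ∈ (ctxII h).W T := by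
  obtain ⟨q, q1, -⟩ := hX.g1 _ _ _ hf
  obtain ⟨z, hz⟩ := hT.hD _ _ q1
  have g := hT.g z
  have h1 := sub_mem hf g
  rw [← hz] at h1
  obtain ⟨u₁, v₁, u₂, v₂, h2, h3, h4, h5⟩ := hX.g4
    ((ctxII h).red T s₁ - (T.γ ((ω : QuadraticAlgebra (ResidueField R)
      (residue R α) (residue R β)) • z) 0 - residue R β • T.γ z 0 + residue R α • T.γ z 1))
    ((ctxII h).red T s₂ - (T.γ ((ω : QuadraticAlgebra (ResidueField R)
      (residue R α) (residue R β)) • z) 1 + T.γ z 0)) (by simpa using h1)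
  obtain ⟨y, y', f₀, f₁, κ, k1, k2, k3, k4, k5, k6, k7⟩ := sol h hX T hT z u₂ v₂ (by
    rw [hT.wr]
    exact h3)
  refine ⟨y, y', k4.trans hz, k7, ?_⟩
  obtain ⟨-, -, h6⟩ := C0 h T k6
  have e : (α * x + β * x') • y - x' • y' - ((r * x) • s₁ + (r * x') • s₂) =
      (r * x) • (α • f₁ - s₁) + (r * x') • (f₀ + β • f₁ - s₂) +
      (ctxII h).chi T (β • κ - (ω : QuadraticAlgebra R α β) • κ) := by
    rw [h6]
    module
  rw [e, K3 h hX T hT f₀ f₁ s₁ s₂ κ z _ _ k1 k2 k3]
  have h7 := neg_mem h2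
  convert h7 using 1
  ext j
  fin_cases j
  · simp
  · simp
  · exact alg3 _ _ _ _ _ _ _ _ h4
  · exact alg4 _ _ _ _ _ _ _ _ h5
  · simp
  · simp
  · simp

end PkATII

theorem goalAtII : GoalAtII.{u} := by
  intro R _ _ r x x' α β h X hX S hS
  have mk0 : ∀ w : (ctxII h).F S, (Submodule.Quotient.mk w : (ctxII h).F S ⧸ (ctxII h).W S) = 0 ↔
      w ∈ (ctxII h).W S := fun w => Submodule.Quotient.mk_eq_zero _
  refine ⟨?_, ?_, ?_, ?_⟩
  · intro t
    obtain ⟨f, rfl⟩ : ∃ f : (ctxII h).F S,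
      (Submodule.Quotient.mk f : (ctxII h).F S ⧸ (ctxII h).W S) = t :=
      Submodule.Quotient.mk_surjective _ t
    exact (mk0 _).trans (PkATII.Z h hX S hS f)
  · intro t t'
    obtain ⟨f, rfl⟩ : ∃ f : (ctxII h).F S,
      (Submodule.Quotient.mk f : (ctxII h).F S ⧸ (ctxII h).W S) = t :=
      Submodule.Quotient.mk_surjective _ t
    obtain ⟨f', rfl⟩ : ∃ f : (ctxII h).F S,
      (Submodule.Quotient.mk f : (ctxII h).F S ⧸ (ctxII h).W S) = t' :=
      Submodule.Quotient.mk_surjective _ t'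
    exact (mk0 _).trans (PkATII.A1 h hX S hS f f')
  · intro t t'
    obtain ⟨f, rfl⟩ : ∃ f : (ctxII h).F S,
      (Submodule.Quotient.mk f : (ctxII h).F S ⧸ (ctxII h).W S) = t :=
      Submodule.Quotient.mk_surjective _ t
    obtain ⟨f', rfl⟩ : ∃ f : (ctxII h).F S,
      (Submodule.Quotient.mk f : (ctxII h).F S ⧸ (ctxII h).W S) = t' :=
      Submodule.Quotient.mk_surjective _ t'
    constructor
    · rintro ⟨y, y', h1, h2, h3⟩
      obtain ⟨g, rfl⟩ : ∃ f : (ctxII h).F S,
        (Submodule.Quotient.mk f : (ctxII h).F S ⧸ (ctxII h).W S) = y :=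
        Submodule.Quotient.mk_surjective _ y
      obtain ⟨g', rfl⟩ : ∃ f : (ctxII h).F S,
        (Submodule.Quotient.mk f : (ctxII h).F S ⧸ (ctxII h).W S) = y' :=
        Submodule.Quotient.mk_surjective _ y'
      have h1' := (PkATII.Z h hX S hS (g - f)).1 ((mk0 _).1 h1)
      have h2' := (PkATII.Z h hX S hS (g' - f')).1 ((mk0 _).1 h2)
      have h3' := PkATII.A2a h hX S hS g g' ((mk0 _).1 h3)
      rw [map_sub, sub_eq_zero] at h1' h2'
      rw [h1', h2'] at h3'
      exact h3'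
    · intro h0
      obtain ⟨y, y', h1, h2, h3⟩ := PkATII.A2b h hX S hS f f' h0
      exact ⟨(Submodule.Quotient.mk y : (ctxII h).F S ⧸ (ctxII h).W S),
        (Submodule.Quotient.mk y' : (ctxII h).F S ⧸ (ctxII h).W S),
        (mk0 _).2 ((PkATII.Z h hX S hS (y - f)).2 (by rw [map_sub, h1, sub_self])),
        (mk0 _).2 ((PkATII.Z h hX S hS (y' - f')).2 (by rw [map_sub, h2, sub_self])),
        (mk0 _).2 h3⟩
  · intro t s₁ s₂
    obtain ⟨f, rfl⟩ : ∃ f : (ctxII h).F S,
      (Submodule.Quotient.mk f : (ctxII h).F S ⧸ (ctxII h).W S) = t :=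
      Submodule.Quotient.mk_surjective _ t
    obtain ⟨p₁, rfl⟩ : ∃ f : (ctxII h).F S,
      (Submodule.Quotient.mk f : (ctxII h).F S ⧸ (ctxII h).W S) = s₁ :=
      Submodule.Quotient.mk_surjective _ s₁
    obtain ⟨p₂, rfl⟩ : ∃ f : (ctxII h).F S,
      (Submodule.Quotient.mk f : (ctxII h).F S ⧸ (ctxII h).W S) = s₂ :=
      Submodule.Quotient.mk_surjective _ s₂
    constructor
    · rintro ⟨y, y', h1, h2, h3⟩
      obtain ⟨g, rfl⟩ : ∃ f : (ctxII h).F S,
        (Submodule.Quotient.mk f : (ctxII h).F S ⧸ (ctxII h).W S) = y :=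
        Submodule.Quotient.mk_surjective _ y
      obtain ⟨g', rfl⟩ : ∃ f : (ctxII h).F S,
        (Submodule.Quotient.mk f : (ctxII h).F S ⧸ (ctxII h).W S) = y' :=
        Submodule.Quotient.mk_surjective _ y'
      have h1' := (PkATII.Z h hX S hS (g - f)).1 ((mk0 _).1 h1)
      rw [map_sub, sub_eq_zero] at h1'
      have h3' := PkATII.A3a h hX S hS g g' p₁ p₂ ((mk0 _).1 h2)
        ((mk0 _).1 (sub_eq_zero.2 h3))
      rw [h1'] at h3'
      exact h3'
    · intro h0
      obtain ⟨y, y', h1, h2, h3⟩ := PkATII.A3b h hX S hS f p₁ p₂ h0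
      exact ⟨(Submodule.Quotient.mk y : (ctxII h).F S ⧸ (ctxII h).W S),
        (Submodule.Quotient.mk y' : (ctxII h).F S ⧸ (ctxII h).W S),
        (mk0 _).2 ((PkATII.Z h hX S hS (y - f)).2 (by rw [map_sub, h1, sub_self])),
        (mk0 _).2 h2, sub_eq_zero.1 ((mk0 _).2 h3)⟩

end Pool.Agent.Helper30.CR
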