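import Pool.Agent.Helper39.CR.GoalsT

/-!
# Packet CAR3-TC0R (MP_d97caa_an): suspension over the real line
-/

open scoped ComplexOrder ZeroAtInfty
open TopologicalSpace

namespace Pool.Agent.Helper30.CR

open Pool.Agent.Helper39.CR

/-- Mutually inverse *-homomorphisms preserve the vanishing of a theory. -/
theorem zero_of_inv (T : Theory) {A B : Type} [NonUnitalCStarAlgebra A]
    [NonUnitalCStarAlgebra B] [SeparableSpace A] [SeparableSpace B] (f : A →⋆ₙₐ[ℂ] B)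
    (g : B →⋆ₙₐ[ℂ] A) (h : ∀ b, f (g b) = b) (hA : T.Zero A) : T.Zero B := by
  intro i x
  have h1 : f.comp g = NonUnitalStarAlgHom.id ℂ B := by
    ext b
    exact h b
  have h2 := T.map_comp i B A B g f x
  rw [h1, T.map_id, hA i (T.map i f x), map_zero] at h2
  exact h2

/-- TC0R. -/
theorem tc0r (emb : S_EMB) (tsz : S_TSZ) : S_TC0R := by
  intro T E _ _
  obtain ⟨u, hu, hr⟩ := emb E
  have : SeparableSpace C₀(ℝ, E) := sep_of_inj u hu
  let φ : C₀(ℝ, E) →⋆ₙₐ[ℂ] Sus E :=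
    NonUnitalStarAlgHom.codRestrict u (susSub E) (fun f => (hr (u f)).1 ⟨f, rfl⟩)
  have hφ : Function.Bijective φ := by
    constructor
    · intro f g hfg
      apply hu
      exact congrArg Subtype.val hfg
    · rintro ⟨f, hf⟩
      obtain ⟨g, hg⟩ := (hr f).2 hf
      exact ⟨g, Subtype.ext hg⟩
  let e := StarAlgEquiv.ofBijective φ hφ
  let ψ : Sus E →⋆ₙₐ[ℂ] C₀(ℝ, E) := (e.symm : Sus E →⋆ₙₐ[ℂ] C₀(ℝ, E))
  have h1 : ∀ b, φ (ψ b) = b := fun b => e.apply_symm_apply b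
  have h2 : ∀ b, ψ (φ b) = b := fun b => e.symm_apply_apply b
  rw [← tsz T E]
  exact ⟨zero_of_inv T φ ψ h1, zero_of_inv T ψ φ h2⟩

end Pool.Agent.Helper30.CR
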